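import Pool.Agent.H798.BV.Stm3

set_option autoImplicit false

/-!
# A zero with large derivative is not too close to the centre, all `p ≥ 2`

Adapted from `Pool/Agent/H277/BV/Logtp.lean` (helper277; parts of the argument there follow
`Pool/Agent/H878/BV/Logt.lean`).
-/

open Polynomial

namespace Pool.Agent.H399.BV

open Pool.Agent.H798.BV

theorem logtq_re {m : ℕ} (f : Fin m → ℂ) (a : ℂ) (h : ∑ j, f j = 0) :
    ∑ j, ((starRingEnd ℂ) (f j) * a).re = 0 := by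
  have h1 : ∑ j, ((starRingEnd ℂ) (f j) * a) = 0 := by
    rw [← Finset.sum_mul, ← map_sum, h, map_zero, zero_mul]
  rw [← Complex.re_sum, h1, Complex.zero_re]

/-- `t^(p-2) ≤ 1 + t^p` -/
theorem logtq_pow {p t : ℝ} (hp : 2 ≤ p) (ht : 0 ≤ t) : t ^ (p - 2) ≤ 1 + t ^ p := by
  rcases le_total t 1 with h | h
  · have h1 : t ^ (p - 2) ≤ 1 := Real.rpow_le_one ht h (by linarith)
    have h2 : 0 ≤ t ^ p := Real.rpow_nonneg ht _
    linarith
  · have h1 : t ^ (p - 2) ≤ t ^ p := Real.rpow_le_rpow_of_exponent_le h (by linarith)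
    linarith

theorem t_LOGTQ (h : S_B1Q) : S_LOGTQ := by
  intro p hp2
  obtain ⟨K, hK0, h1⟩ := h p hp2
  refine ⟨1 + 6 * K, by positivity, ?_⟩
  intro m hm z a hz ha0 ha1 hzp hchi hprod
  have hp0 : (0 : ℝ) < p := by linarith
  have hm1 : (1 : ℝ) ≤ m := by exact_mod_cast hm
  have hna : ‖(a : ℂ)‖ = a := by rw [Complex.norm_real, Real.norm_eq_abs, abs_of_nonneg ha0]
  have hap0 : 0 ≤ a ^ p := Real.rpow_nonneg ha0 _
  have hapa : a ^ p ≤ a ^ 2 := by
    rw [← Real.rpow_two]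
    rcases eq_or_lt_of_le ha0 with h | h
    · rw [← h, Real.zero_rpow hp0.ne', Real.zero_rpow two_ne_zero]
    · exact Real.rpow_le_rpow_of_exponent_ge h ha1 hp2
  have ha2 : 0 ≤ a ^ 2 := sq_nonneg a
  -- the distances
  set r : Fin m → ℝ := fun j => ‖z j.succ - (a : ℂ)‖ with hr
  have hprod' : (m : ℝ) + 1 ≤ ∏ j, r j := by
    have e : ‖∏ j : Fin m, ((a : ℂ) - z j.succ)‖ = ∏ j, r j := by
      rw [norm_prod]
      exact Finset.prod_congr rfl (fun j _ => norm_sub_rev _ _)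
    rw [← e]
    exact hprod
  have hr0 : ∀ j, 0 < r j := by
    intro j
    rcases eq_or_lt_of_le (norm_nonneg (z j.succ - (a : ℂ))) with h | h
    · exfalso
      have : ∏ j, r j = 0 := Finset.prod_eq_zero (Finset.mem_univ j) h.symm
      rw [this] at hprod'
      linarith
    · exact h
  have hx0 : ∀ j, 0 < r j ^ p := fun j => Real.rpow_pos_of_pos (hr0 j) p
  have hlogsum : Real.log ((m : ℝ) + 1) ≤ ∑ j, Real.log (r j) := by
    rw [← Real.log_prod (fun j _ => (hr0 j).ne')]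
    exact Real.log_le_log (by linarith) hprod'
  have hlogn : 0 ≤ Real.log ((m : ℝ) + 1) := Real.log_nonneg (by linarith)
  -- the sum over all the zeros
  have hz0 : ‖z 0 - (a : ℂ)‖ ^ p = 0 := by
    rw [hz, sub_self, norm_zero, Real.zero_rpow hp0.ne']
  have hsum_succ : ∑ j, ‖z j - (a : ℂ)‖ ^ p = ∑ j, r j ^ p := by
    rw [Fin.sum_univ_succ, hz0, zero_add]
  have hre := logtq_re (fun j => chi p (z j)) (a : ℂ) hchi
  have hpt : ∀ j, ‖z j - (a : ℂ)‖ ^ p ≤ ‖z j‖ ^ p -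
      p * ((starRingEnd ℂ) (chi p (z j)) * (a : ℂ)).re + K * (((1 + ‖z j‖ ^ p)) * a ^ 2 + a ^ 2) := by
    intro j
    have h3 := h1 (z j) a
    rw [hna] at h3
    refine h3.trans ?_
    have h4 : ‖z j‖ ^ (p - 2) * a ^ 2 + a ^ p ≤ (1 + ‖z j‖ ^ p) * a ^ 2 + a ^ 2 := by
      have := mul_le_mul_of_nonneg_right (logtq_pow hp2 (norm_nonneg (z j))) ha2
      linarith
    have h6 : K * (‖z j‖ ^ (p - 2) * a ^ 2 + a ^ p) ≤ K * ((1 + ‖z j‖ ^ p) * a ^ 2 + a ^ 2) :=
      mul_le_mul_of_nonneg_left h4 hK0.le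
    linarith
  have hi : ∑ j, r j ^ p ≤ ((m : ℝ) + 1) * (1 + 3 * K * a ^ 2) := by
    rw [← hsum_succ]
    calc ∑ j, ‖z j - (a : ℂ)‖ ^ p ≤ ∑ j, (‖z j‖ ^ p -
          p * ((starRingEnd ℂ) (chi p (z j)) * (a : ℂ)).re +
            K * (((1 + ‖z j‖ ^ p)) * a ^ 2 + a ^ 2)) :=
          Finset.sum_le_sum (fun j _ => hpt j)
      _ = ((m : ℝ) + 1) * (1 + 3 * K * a ^ 2) := by
          rw [Finset.sum_add_distrib, Finset.sum_sub_distrib, ← Finset.mul_sum, hre,
            ← Finset.mul_sum, Finset.sum_add_distrib, ← Finset.sum_mul, Finset.sum_add_distrib, hzp]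
          simp
          ring
  -- conclusion
  have hlogr : ∀ j, Real.log (r j ^ p) = p * Real.log (r j) := fun j => Real.log_rpow (hr0 j) p
  have hv : p * ∑ j, Real.log (r j) ≤ ∑ j, r j ^ p - m := by
    have h3 : ∑ j, Real.log (r j ^ p) ≤ ∑ j, (r j ^ p - 1) :=
      Finset.sum_le_sum (fun j _ => Real.log_le_sub_one_of_pos (hx0 j))
    simp only [hlogr] at h3
    rw [← Finset.mul_sum, Finset.sum_sub_distrib] at h3
    simpa using h3
  have hfin : Real.log ((m : ℝ) + 1) ≤ p * ∑ j, Real.log (r j) := by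
    nlinarith
  have hKa : 0 ≤ K * a ^ 2 := by positivity
  have hma : 0 ≤ (m : ℝ) * a ^ 2 := by positivity
  have hKma : 3 * K * a ^ 2 * (m + 1) ≤ 6 * K * (m * a ^ 2) := by
    nlinarith
  have hlast : Real.log ((m : ℝ) + 1) ≤ 1 + 6 * K * (m * a ^ 2) := by
    have e : ((m : ℝ) + 1) * (1 + 3 * K * a ^ 2) - m = 1 + 3 * K * a ^ 2 * (m + 1) := by ring
    linarith
  have e2 : (1 + 6 * K) * (1 + m * a ^ 2) = 1 + 6 * K * (m * a ^ 2) + (6 * K + m * a ^ 2) := by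
    ring
  rw [e2]
  have : 0 ≤ 6 * K + m * a ^ 2 := by positivity
  linarith

end Pool.Agent.H399.BV
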